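import Pool.Agent.H8.ZA.Targets

/-!
# Module LIN: growth of heights along a line
-/

open MvPolynomial

namespace Pool.Agent.H19.ZA

open Pool.Agent.H8.ZA
open Pool.Agent.H12.ZD (pmap)

/-- restriction of a polynomial to the line `a + T u` -/
noncomputable def lineP {R : Type} [CommRing R] (a u : Fin 3 → R) (q : MvPolynomial (Fin 3) R) :
    Polynomial R :=
  aeval (fun j => Polynomial.C (a j) + Polynomial.C (u j) * Polynomial.X) q

theorem lineP_eval {R : Type} [CommRing R] (a u : Fin 3 → R) (q : MvPolynomial (Fin 3) R) (t : R) :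
    (lineP a u q).eval t = eval (fun j => a j + t * u j) q := by
  unfold lineP
  have h : ((Polynomial.evalRingHom t).comp
      (aeval (fun j => Polynomial.C (a j) + Polynomial.C (u j) * Polynomial.X) :
        MvPolynomial (Fin 3) R →ₐ[R] Polynomial R).toRingHom) =
      (eval (fun j => a j + t * u j) : MvPolynomial (Fin 3) R →+* R) := by
    apply MvPolynomial.ringHom_ext
    · intro r
      simp
    · intro i
      simp
      ring
  exact DFunLike.congr_fun h q

theorem lin_natDegree {R : Type} [CommRing R] (a u : R) :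
    (Polynomial.C a + Polynomial.C u * Polynomial.X : Polynomial R).natDegree ≤ 1 := by
  rw [add_comm]
  exact Polynomial.natDegree_linear_le

theorem lin_pow {R : Type} [CommRing R] (a u : R) (m : ℕ) :
    ((Polynomial.C a + Polynomial.C u * Polynomial.X : Polynomial R) ^ m).natDegree ≤ m ∧
    ((Polynomial.C a + Polynomial.C u * Polynomial.X : Polynomial R) ^ m).coeff m = u ^ m := by
  have h := lin_natDegree a u
  constructor
  · have := Polynomial.natDegree_pow_le_of_le m h
    simpa using this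
  · have := Polynomial.coeff_pow_of_natDegree_le (m := m) h
    rw [mul_one] at this
    rw [this]
    simp

theorem lin_prod {R : Type} [CommRing R] (a u : Fin 3 → R) (m : Fin 3 → ℕ) :
    (∏ i, (Polynomial.C (a i) + Polynomial.C (u i) * Polynomial.X : Polynomial R) ^ m i).natDegree ≤
      ∑ i, m i ∧
    (∏ i, (Polynomial.C (a i) + Polynomial.C (u i) * Polynomial.X : Polynomial R) ^ m i).coeff
      (∑ i, m i) = ∏ i, u i ^ m i := by
  rw [Fin.prod_univ_three, Fin.sum_univ_three, Fin.prod_univ_three]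
  obtain ⟨d0, c0⟩ := lin_pow (a 0) (u 0) (m 0)
  obtain ⟨d1, c1⟩ := lin_pow (a 1) (u 1) (m 1)
  obtain ⟨d2, c2⟩ := lin_pow (a 2) (u 2) (m 2)
  have d01 := Polynomial.natDegree_mul_le_of_le d0 d1
  refine ⟨Polynomial.natDegree_mul_le_of_le d01 d2, ?_⟩
  rw [Polynomial.coeff_mul_add_eq_of_natDegree_le d01 d2,
    Polynomial.coeff_mul_add_eq_of_natDegree_le d0 d1,
    c0, c1, c2]

theorem lineP_coeff {R : Type} [CommRing R] (a u : Fin 3 → R) (q : MvPolynomial (Fin 3) R) (d : ℕ)
    (hq : q.totalDegree ≤ d) :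
    (lineP a u q).natDegree ≤ d ∧
      (lineP a u q).coeff d = eval u (homogeneousComponent d q) := by
  classical
  have e : lineP a u q = ∑ m ∈ q.support, Polynomial.C (coeff m q) *
      ∏ i, (Polynomial.C (a i) + Polynomial.C (u i) * Polynomial.X : Polynomial R) ^ m i := by
    unfold lineP
    rw [aeval_def, eval₂_eq']
    rfl
  have hdeg : ∀ m ∈ q.support, ∑ i, m i ≤ d := by
    intro m hm
    have h1 := le_totalDegree hm
    have h2 : (m.sum fun _ e => e) = ∑ i, m i := Finsupp.sum_fintype _ _ (fun _ => rfl)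
    omega
  constructor
  · rw [e]
    apply Polynomial.natDegree_sum_le_of_forall_le
    intro m hm
    exact (Polynomial.natDegree_C_mul_le _ _).trans ((lin_prod a u m).1.trans (hdeg m hm))
  · rw [e, Polynomial.finsetSum_coeff, homogeneousComponent_apply, map_sum, Finset.sum_filter]
    refine Finset.sum_congr rfl fun m hm => ?_
    rw [Polynomial.coeff_C_mul]
    have hmd : m.degree = ∑ i, m i := by
      rw [Finsupp.degree_eq_sum]
    rw [hmd]
    split_ifs with h
    · rw [← h, (lin_prod a u m).2, eval_monomial, Finsupp.prod_fintype _ _ (fun _ => pow_zero _)]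
    · have hlt : ∑ i, m i < d := lt_of_le_of_ne (hdeg m hm) h
      rw [Polynomial.coeff_eq_zero_of_natDegree_lt (lt_of_le_of_lt (lin_prod a u m).1 hlt), mul_zero]

/-- lower bound for the values of a polynomial at natural numbers -/
theorem poly_lower {L : Type} [Field L] (w : AbsoluteValue L ℝ) (hw : ∀ n : ℕ, w (n : L) = n)
    (P : Polynomial L) (d : ℕ) (hd : 1 ≤ d) (hP : P.natDegree ≤ d) (hc : P.coeff d ≠ 0) :
    ∃ c : ℝ, 1 ≤ c ∧ ∀ t : ℕ, 1 ≤ t → (t : ℝ) ^ d ≤ c * max 1 (w (P.eval (t : L))) := by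
  obtain ⟨γ, hγ⟩ : ∃ γ, γ = w (P.coeff d) := ⟨_, rfl⟩
  have hγ0 : 0 < γ := by rw [hγ]; exact w.pos hc
  obtain ⟨S, hS⟩ : ∃ S, S = ∑ i ∈ Finset.range d, w (P.coeff i) := ⟨_, rfl⟩
  have hS0 : 0 ≤ S := by rw [hS]; exact Finset.sum_nonneg fun i _ => w.nonneg _
  refine ⟨1 + 2 / γ + (2 * S / γ) ^ d, by
    have : 0 ≤ 2 / γ := by positivity
    have : 0 ≤ (2 * S / γ) ^ d := by positivity
    linarith, ?_⟩
  intro t ht
  have ht1 : (1 : ℝ) ≤ t := by exact_mod_cast ht
  have hmax1 : 1 ≤ max 1 (w (P.eval (t : L))) := le_max_left _ _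
  have hmaxw : w (P.eval (t : L)) ≤ max 1 (w (P.eval (t : L))) := le_max_right _ _
  have key : γ * (t : ℝ) ^ d ≤ w (P.eval (t : L)) + S * (t : ℝ) ^ (d - 1) := by
    have e1 : P.eval (t : L) = ∑ i ∈ Finset.range (d + 1), P.coeff i * (t : L) ^ i :=
      Polynomial.eval_eq_sum_range' (Nat.lt_succ_of_le hP) _
    rw [Finset.sum_range_succ] at e1
    have e2 : P.coeff d * (t : L) ^ d =
        P.eval (t : L) - ∑ i ∈ Finset.range d, P.coeff i * (t : L) ^ i := by
      rw [e1]; ring
    have e3 : γ * (t : ℝ) ^ d = w (P.coeff d * (t : L) ^ d) := by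
      rw [w.map_mul, w.map_pow, hw, hγ]
    rw [e3, e2]
    refine (w.sub_le_add _ _).trans (add_le_add le_rfl ?_)
    refine (w.sum_le _ _).trans ?_
    rw [hS, Finset.sum_mul]
    apply Finset.sum_le_sum
    intro i hi
    rw [w.map_mul, w.map_pow, hw]
    apply mul_le_mul_of_nonneg_left _ (w.nonneg _)
    apply pow_le_pow_right₀ ht1
    have := Finset.mem_range.1 hi
    omega
  by_cases hcase : 2 * S / γ ≤ t
  · have h1 : 2 * S ≤ t * γ := by rwa [div_le_iff₀ hγ0] at hcase
    have h2 : (t : ℝ) ^ d = t * (t : ℝ) ^ (d - 1) := by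
      rw [← pow_succ']; congr 1; omega
    have h3 : 0 < (t : ℝ) ^ (d - 1) := by positivity
    have h4 : S * (t : ℝ) ^ (d - 1) ≤ γ / 2 * (t : ℝ) ^ d := by
      rw [h2]; nlinarith
    have h5 : (t : ℝ) ^ d ≤ 2 / γ * w (P.eval (t : L)) := by
      rw [div_mul_eq_mul_div, le_div_iff₀ hγ0]; nlinarith
    have h6 : 0 ≤ (2 * S / γ) ^ d := by positivity
    have h7 : 0 ≤ 2 / γ := by positivity
    calc (t : ℝ) ^ d ≤ 2 / γ * w (P.eval (t : L)) := h5
      _ ≤ 2 / γ * max 1 (w (P.eval (t : L))) := mul_le_mul_of_nonneg_left hmaxw h7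
      _ ≤ _ := mul_le_mul_of_nonneg_right (by linarith) (by linarith)
  · push Not at hcase
    have h5 : (t : ℝ) ^ d ≤ (2 * S / γ) ^ d := pow_le_pow_left₀ (by linarith) hcase.le d
    have h7 : 0 ≤ 2 / γ := by positivity
    have h6 : 0 ≤ (2 * S / γ) ^ d := by positivity
    calc (t : ℝ) ^ d ≤ 1 + 2 / γ + (2 * S / γ) ^ d := by linarith
      _ = (1 + 2 / γ + (2 * S / γ) ^ d) * 1 := by ring
      _ ≤ _ := mul_le_mul_of_nonneg_left hmax1 (by linarith)

theorem top_ne_zero {k : Type} [CommRing k] (q : MvPolynomial (Fin 3) k) (hq : q ≠ 0) :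
    homogeneousComponent q.totalDegree q ≠ 0 := by
  classical
  obtain ⟨m, hm, he⟩ := Finset.exists_mem_eq_sup q.support
    (Finset.nonempty_iff_ne_empty.2 fun h => hq (support_eq_empty.1 h))
    (fun s => s.sum fun _ e => e)
  intro h0
  have h1 : coeff m (homogeneousComponent q.totalDegree q) = 0 := by rw [h0, coeff_zero]
  rw [coeff_homogeneousComponent, if_pos] at h1
  · exact (mem_support_iff.1 hm) h1
  · rw [totalDegree, he, Finsupp.degree_eq_sum, Finsupp.sum_fintype _ _ (fun _ => rfl)]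

theorem abv_int {L : Type} [Field L] (w : AbsoluteValue L ℝ) (hw : ∀ n : ℕ, w (n : L) = n)
    (m : ℤ) : w (m : L) = |(m : ℝ)| := by
  obtain ⟨n, rfl | rfl⟩ := Int.eq_nat_or_neg m
  · rw [Int.cast_natCast, hw, Int.cast_natCast, abs_of_nonneg (Nat.cast_nonneg n)]
  · rw [Int.cast_neg, w.map_neg, Int.cast_natCast, hw, Int.cast_neg, Int.cast_natCast, abs_neg,
      abs_of_nonneg (Nat.cast_nonneg n)]

theorem na_nat {L : Type} [Field L] (w : AbsoluteValue L ℝ) (hw : NA w) (n : ℕ) :
    w (n : L) ≤ 1 := by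
  induction n with
  | zero => simp
  | succ n ih =>
    push_cast
    refine (hw _ _).trans (max_le ih ?_)
    rw [w.map_one]

theorem na_int {L : Type} [Field L] (w : AbsoluteValue L ℝ) (hw : NA w) (m : ℤ) :
    w (m : L) ≤ 1 := by
  obtain ⟨n, rfl | rfl⟩ := Int.eq_nat_or_neg m
  · rw [Int.cast_natCast]
    exact na_nat w hw n
  · rw [Int.cast_neg, w.map_neg, Int.cast_natCast]
    exact na_nat w hw n

theorem top_zero {k : Type} [CommRing k] (q : MvPolynomial (Fin 3) k) (d : ℕ)
    (hq : q.totalDegree ≤ d) (hd : 1 ≤ d) :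
    eval (fun _ => (0 : k)) (homogeneousComponent d q) = 0 := by
  have h1 := (lineP_coeff (fun _ => (0 : k)) (fun _ => (0 : k)) q d hq).2
  rw [← h1]
  have h2 : lineP (fun _ => (0 : k)) (fun _ => (0 : k)) q = Polynomial.C (eval (fun _ => 0) q) := by
    unfold lineP
    have h : ((aeval (fun _ : Fin 3 => (Polynomial.C (0 : k) + Polynomial.C (0 : k) *
        Polynomial.X : Polynomial k)) : MvPolynomial (Fin 3) k →ₐ[k] Polynomial k).toRingHom) =
        (Polynomial.C : k →+* Polynomial k).comp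
          (eval (fun _ => (0 : k)) : MvPolynomial (Fin 3) k →+* k) := by
      apply MvPolynomial.ringHom_ext
      · intro r
        simp
      · intro i
        simp
    exact DFunLike.congr_fun h q
  rw [h2, Polynomial.coeff_C, if_neg (by omega)]

section height

variable {K : IntermediateField ℚ Qb}

theorem ht_ge_arch (F : HFam K) (x : Fin 3 → Qb) :
    ∑ i ∈ F.arch, Real.log (sz (F.abv i) x) ≤ F.ht x := by
  classical
  have e : ∑ i ∈ F.arch, Real.log (sz (F.abv i) x) =
      ∑ᶠ i, (if i ∈ F.arch then Real.log (sz (F.abv i) x) else 0) := by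
    rw [finsum_eq_sum_of_support_subset (s := F.arch)]
    · exact Finset.sum_congr rfl fun i hi => (if_pos hi).symm
    · intro i hi
      by_contra hc
      exact hi (if_neg hc)
  rw [e]
  apply finsum_le_finsum'
  · refine F.arch.finite_toSet.subset fun i hi => ?_
    by_contra hc
    exact hi (if_neg hc)
  · exact log_sz_finite F x
  · intro i
    simp only
    split_ifs
    · exact le_rfl
    · exact log_sz_nonneg _ _

theorem ht_le_arch (F : HFam K) (x a : Fin 3 → Qb) (h : F.ι → ℝ)
    (H1 : ∀ i, i ∉ F.arch → sz (F.abv i) x ≤ sz (F.abv i) a)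
    (H2 : ∀ i ∈ F.arch, Real.log (sz (F.abv i) x) ≤ Real.log (sz (F.abv i) a) + h i) :
    F.ht x ≤ F.ht a + ∑ i ∈ F.arch, h i := by
  classical
  have hs : (Function.support fun i => if i ∈ F.arch then h i else 0).Finite := by
    refine F.arch.finite_toSet.subset fun i hi => ?_
    by_contra hc
    exact hi (if_neg hc)
  have e : ∑ i ∈ F.arch, h i = ∑ᶠ i, (if i ∈ F.arch then h i else 0) := by
    rw [finsum_eq_sum_of_support_subset (s := F.arch)]
    · exact Finset.sum_congr rfl fun i hi => (if_pos hi).symm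
    · intro i hi
      by_contra hc
      exact hi (if_neg hc)
  rw [e]
  unfold HFam.ht
  rw [← finsum_add_distrib (log_sz_finite F a) hs]
  apply finsum_le_finsum'
  · exact log_sz_finite F x
  · exact ((log_sz_finite F a).union hs).subset (Function.support_add _ _)
  · intro i
    simp only
    split_ifs with hi
    · exact H2 i hi
    · rw [add_zero]
      exact Real.log_le_log (sz_pos _ _) (H1 i hi)

end height

theorem pf_LIN (_hHUB : T_HUB) : T_LIN := by
  intro g d hg hd
  obtain ⟨i, hi⟩ := exists_deg_eq g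
  rw [hg] at hi
  have hgi : g i ≠ 0 := by
    intro h0
    rw [h0, totalDegree_zero] at hi
    omega
  have htop := top_ne_zero (g i) hgi
  rw [hi] at htop
  -- the direction
  obtain ⟨u, hu⟩ : ∃ u : Fin 3 → ℤ, eval (fun j => ((u j : ℤ) : Qb))
      (homogeneousComponent d (g i)) ≠ 0 := by
    by_contra hcon
    push Not at hcon
    apply htop
    apply funext_set (fun _ => Set.range (fun m : ℤ => (m : Qb)))
    · intro _
      exact Set.infinite_range_of_injective Int.cast_injective
    · intro x hx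
      rw [Set.mem_univ_pi] at hx
      choose m hm using hx
      have : x = fun j => ((m j : ℤ) : Qb) := funext fun j => (hm j).symm
      rw [this, hcon, map_zero]
  refine ⟨u, ?_⟩
  obtain ⟨j0, hj0⟩ : ∃ j, u j ≠ 0 := by
    by_contra hcon
    push Not at hcon
    apply hu
    have : (fun j => ((u j : ℤ) : Qb)) = fun _ => 0 := funext fun j => by rw [hcon j]; simp
    rw [this]
    exact top_zero (g i) d hi.le hd
  intro K F a
  -- upper bound for the height of the points
  have hup : ∀ t : ℕ, 1 ≤ t → F.ht (fun j => a j + t * u j) ≤ F.ht a +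
      ∑ w ∈ F.arch, (Real.log (1 + ∑ j, |(u j : ℝ)|) + Real.log t) := by
    intro t ht
    have ht1 : (1 : ℝ) ≤ t := by exact_mod_cast ht
    apply ht_le_arch
    · intro w hw
      have hna := F.na w hw
      apply sz_le (one_le_sz _ _)
      intro j
      refine (hna _ _).trans (max_le (le_sz _ _ _) ?_)
      rw [map_mul]
      have h1 := na_nat _ hna t
      have h2 := na_int _ hna (u j)
      calc F.abv w (t : Qb) * F.abv w (u j : Qb) ≤ 1 * 1 :=
            mul_le_mul h1 h2 (AbsoluteValue.nonneg _ _) zero_le_one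
        _ = 1 := one_mul 1
        _ ≤ _ := one_le_sz _ _
    · intro w hw
      have hwn := F.arch_nat w hw
      have hU : 0 ≤ ∑ j, |(u j : ℝ)| := Finset.sum_nonneg fun j _ => abs_nonneg _
      rw [← Real.log_mul (by positivity) (by positivity),
        ← Real.log_mul (sz_pos _ _).ne' (by positivity)]
      apply Real.log_le_log (sz_pos _ _)
      have hsa := one_le_sz (F.abv w) a
      have hbig : 1 ≤ sz (F.abv w) a * ((1 + ∑ j, |(u j : ℝ)|) * t) := by
        have : 1 ≤ (1 + ∑ j, |(u j : ℝ)|) * t := by nlinarith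
        nlinarith
      apply sz_le hbig
      intro j
      refine ((F.abv w).add_le _ _).trans ?_
      rw [map_mul, hwn, abv_int _ hwn]
      have h3 := le_sz (F.abv w) a j
      have h4 : |(u j : ℝ)| ≤ ∑ j, |(u j : ℝ)| :=
        Finset.single_le_sum (f := fun j => |(u j : ℝ)|) (fun _ _ => abs_nonneg _)
          (Finset.mem_univ j)
      have h5 : (t : ℝ) * |(u j : ℝ)| ≤ t * ∑ j, |(u j : ℝ)| :=
        mul_le_mul_of_nonneg_left h4 (by linarith)
      have h6 : 0 ≤ (t : ℝ) * ∑ j, |(u j : ℝ)| := mul_nonneg (by linarith) hU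
      nlinarith [mul_nonneg (sub_nonneg.2 hsa) h6, mul_nonneg (sub_nonneg.2 ht1) (sub_nonneg.2 hsa)]
  -- lower bounds
  have hlow : ∀ w ∈ F.arch, ∃ c : ℝ, 1 ≤ c ∧ ∀ t : ℕ, 1 ≤ t → (t : ℝ) ^ d ≤
      c * sz (F.abv w) (pmap g fun j => a j + t * u j) := by
    intro w hw
    obtain ⟨c, hc1, hc⟩ := poly_lower (F.abv w) (F.arch_nat w hw)
      (lineP a (fun j => ((u j : ℤ) : Qb)) (g i)) d hd
      (lineP_coeff a _ (g i) d hi.le).1 (by
        rw [(lineP_coeff a _ (g i) d hi.le).2]; exact hu)
    refine ⟨c, hc1, fun t ht => (hc t ht).trans ?_⟩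
    apply mul_le_mul_of_nonneg_left _ (by linarith)
    apply max_le (one_le_sz _ _)
    rw [lineP_eval]
    exact le_sz (F.abv w) (pmap g fun j => a j + t * u j) i
  choose! c hc1 hc using hlow
  obtain ⟨w0, hw0⟩ := F.arch_nonempty
  obtain ⟨C, hC⟩ : ∃ C : ℝ, C = d * (F.ht a + F.arch.card * Real.log (1 + ∑ j, |(u j : ℝ)|)) +
    ∑ w ∈ F.arch, Real.log (c w) := ⟨_, rfl⟩
  obtain ⟨C', hC'⟩ : ∃ C' : ℝ, C' = Real.log (1 + F.abv w0 (a j0)) := ⟨_, rfl⟩
  refine ⟨max C C', fun t ht => ⟨?_, ?_⟩⟩
  · have ht1 : (1 : ℝ) ≤ t := by exact_mod_cast ht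
    have h1 := hup t ht
    rw [Finset.sum_const, nsmul_eq_mul] at h1
    have h2 := ht_ge_arch F (pmap g fun j => a j + t * u j)
    have h3 : ∑ w ∈ F.arch, (d * Real.log t - Real.log (c w)) ≤
        ∑ w ∈ F.arch, Real.log (sz (F.abv w) (pmap g fun j => a j + t * u j)) := by
      apply Finset.sum_le_sum
      intro w hw
      have h4 := hc w hw t ht
      have h5 : 0 < c w := by linarith [hc1 w hw]
      have h6 := Real.log_le_log (by positivity) h4
      rw [Real.log_pow, Real.log_mul h5.ne' (sz_pos _ _).ne'] at h6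
      linarith
    rw [Finset.sum_sub_distrib, Finset.sum_const, nsmul_eq_mul] at h3
    have hd0 : (0 : ℝ) ≤ d := Nat.cast_nonneg d
    have h7 := mul_le_mul_of_nonneg_left h1 hd0
    have h8 : d * (F.ht a + F.arch.card * Real.log (1 + ∑ j, |(u j : ℝ)|)) +
        ∑ w ∈ F.arch, Real.log (c w) ≤ max C C' := by
      rw [← hC]
      exact le_max_left _ _
    nlinarith
  · have ht1 : (1 : ℝ) ≤ t := by exact_mod_cast ht
    have hwn := F.arch_nat w0 hw0
    have h1 := ht_ge_arch F (fun j => a j + t * u j)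
    have h2 : Real.log (sz (F.abv w0) (fun j => a j + t * u j)) ≤
        ∑ i ∈ F.arch, Real.log (sz (F.abv i) fun j => a j + t * u j) :=
      Finset.single_le_sum (f := fun i => Real.log (sz (F.abv i) fun j => a j + t * u j))
        (fun i _ => log_sz_nonneg _ _) hw0
    have h3 : (t : ℝ) ≤ (1 + F.abv w0 (a j0)) * sz (F.abv w0) (fun j => a j + t * u j) := by
      have h4 : F.abv w0 (a j0 + t * u j0) ≤ sz (F.abv w0) (fun j => a j + t * u j) :=
        le_sz (F.abv w0) (fun j => a j + t * u j) j0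
      have h5 : (1 : ℝ) ≤ |(u j0 : ℝ)| := by
        have : (1 : ℤ) ≤ |u j0| := Int.one_le_abs hj0
        exact_mod_cast this
      have h6 : (t : ℝ) * |(u j0 : ℝ)| ≤ F.abv w0 (a j0 + t * u j0) + F.abv w0 (a j0) := by
        have e : (t : ℝ) * |(u j0 : ℝ)| = F.abv w0 ((a j0 + t * u j0) - a j0) := by
          rw [add_sub_cancel_left, map_mul, hwn, abv_int _ hwn]
        rw [e]
        exact (F.abv w0).sub_le_add _ _
      have h7 := one_le_sz (F.abv w0) (fun j => a j + t * u j)
      have h8 : 0 ≤ F.abv w0 (a j0) := AbsoluteValue.nonneg _ _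
      nlinarith [mul_nonneg h8 (sub_nonneg.2 h7)]
    have h9 : (0 : ℝ) < 1 + F.abv w0 (a j0) := by
      have : 0 ≤ F.abv w0 (a j0) := AbsoluteValue.nonneg _ _
      linarith
    have h10 := Real.log_le_log (by linarith) h3
    rw [Real.log_mul h9.ne' (sz_pos _ _).ne'] at h10
    have h11 : Real.log (1 + F.abv w0 (a j0)) ≤ max C C' := by
      rw [← hC']
      exact le_max_right _ _
    linarith

end Pool.Agent.H19.ZA
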