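import Pool.Agent.H8.ZA.Targets
import Pool.Agent.H8.ZA.Targets2

/-!
# Module ORB: a component of the closure of an orbit is periodic
-/

open MvPolynomial

namespace Pool.Agent.H19.ZA

open Pool.Agent.H8.ZA
open Pool.Agent.H12.ZD (pmap)

/-- polynomials vanishing on the orbit from time `n` on -/
noncomputable def orbI {k : Type} [Field k] (f : Tup k) (x : Fin 3 → k) (n : ℕ) : Ideal (Po k) :=
  ⨅ m : ℕ, RingHom.ker (eval ((pmap f)^[m + n] x) : Po k →+* k)

theorem mem_orbI {k : Type} [Field k] (f : Tup k) (x : Fin 3 → k) (n : ℕ) (q : Po k) :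
    q ∈ orbI f x n ↔ ∀ m, eval ((pmap f)^[m + n] x) q = 0 := by
  unfold orbI
  rw [Ideal.mem_iInf]
  rfl

theorem comap_orbI {k : Type} [Field k] (f : Tup k) (x : Fin 3 → k) (n : ℕ) :
    Ideal.comap (aeval f : Po k →ₐ[k] Po k) (orbI f x n) = orbI f x (n + 1) := by
  ext q
  rw [Ideal.mem_comap, mem_orbI, mem_orbI]
  refine forall_congr' fun m => ?_
  rw [eval_aeval, ← Function.iterate_succ_apply' (pmap f)]
  rfl

theorem iter_comap {k : Type} [Field k] (f : Tup k) (r : ℕ) (p : Ideal (Po k)) :
    (fun I : Ideal (Po k) => Ideal.comap (aeval f : Po k →ₐ[k] Po k) I)^[r] p =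
      Ideal.comap (aeval (it f r) : Po k →ₐ[k] Po k) p := by
  induction r generalizing p with
  | zero =>
    ext q
    rw [Function.iterate_zero_apply, Ideal.mem_comap, it_zero, aeval_X_left_apply]
  | succ r ih =>
    rw [Function.iterate_succ_apply, ih]
    ext q
    rw [Ideal.mem_comap, Ideal.mem_comap, Ideal.mem_comap, it_succ', aeval_comp]

theorem pf_ORX : T_ORX := by
  intro k _ f f' x h hf hh hx
  have hsurj : Function.Surjective (aeval f : Po k →ₐ[k] Po k) := fun q =>
    ⟨aeval f' q, hf.aeval_right q⟩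
  have hinj := Ideal.comap_injective_of_surjective (aeval f : Po k →ₐ[k] Po k) hsurj
  -- stabilization
  have hmono : Monotone (orbI f x) := by
    apply monotone_nat_of_le_succ
    intro n q hq
    rw [mem_orbI] at hq ⊢
    intro m
    have := hq (m + 1)
    rwa [show m + 1 + n = m + (n + 1) by ring] at this
  obtain ⟨N, hN⟩ := monotone_stabilizes_iff_noetherian.2 (inferInstance : IsNoetherian (Po k) (Po k))
    ⟨orbI f x, hmono⟩
  have hback : ∀ n, orbI f x n = orbI f x (n + 1) → orbI f x 0 = orbI f x 1 := by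
    intro n
    induction n with
    | zero => intro h; exact h
    | succ n ih =>
      intro h
      apply ih
      apply hinj
      rw [comap_orbI, comap_orbI]
      exact h
  have h01 : orbI f x 0 = orbI f x 1 := hback N (hN (N + 1) (Nat.le_succ N))
  have hcomap : Ideal.comap (aeval f : Po k →ₐ[k] Po k) (orbI f x 0) = orbI f x 0 := by
    rw [comap_orbI]; exact h01.symm
  -- minimal primes
  obtain ⟨S, hS⟩ : ∃ S, S = (orbI f x 0).minimalPrimes := ⟨_, rfl⟩
  have hfin : S.Finite := by
    rw [hS]; exact Ideal.finite_minimalPrimes_of_isNoetherianRing (Po k) (orbI f x 0)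
  have hmaps : ∀ p ∈ S, Ideal.comap (aeval f : Po k →ₐ[k] Po k) p ∈ S := by
    intro p hp
    rw [hS] at hp ⊢
    have := Ideal.minimalPrimes_comap_of_surjective (f := (aeval f : Po k →ₐ[k] Po k).toRingHom)
      hsurj hp
    have e : Ideal.comap (aeval f : Po k →ₐ[k] Po k).toRingHom (orbI f x 0) = orbI f x 0 := hcomap
    rw [e] at this
    exact this
  obtain ⟨φ, hφ⟩ : ∃ φ : S → S, ∀ p : S, ((φ p : S) : Ideal (Po k)) =
      Ideal.comap (aeval f : Po k →ₐ[k] Po k) (p : Ideal (Po k)) :=
    ⟨fun p => ⟨_, hmaps p.1 p.2⟩, fun _ => rfl⟩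
  have hφi : Function.Injective φ := by
    intro p q hpq
    apply Subtype.ext
    apply hinj
    rw [← hφ, ← hφ, hpq]
  have : Finite S := hfin
  have hiter : ∀ (n : ℕ) (p : S), ((φ^[n] p : S) : Ideal (Po k)) =
      Ideal.comap (aeval (it f n) : Po k →ₐ[k] Po k) (p : Ideal (Po k)) := by
    intro n
    induction n with
    | zero =>
      intro p
      rw [← iter_comap]
      rfl
    | succ n ih =>
      intro p
      rw [Function.iterate_succ_apply, ih, hφ, ← iter_comap, ← iter_comap,
        Function.iterate_succ_apply]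
  -- the point
  have hprime : (RingHom.ker (eval x : Po k →+* k)).IsPrime := RingHom.ker_isPrime _
  have hle : orbI f x 0 ≤ RingHom.ker (eval x : Po k →+* k) := by
    intro q hq
    rw [mem_orbI] at hq
    exact hq 0
  obtain ⟨p, hp, hpx⟩ := Ideal.exists_minimalPrimes_le hle
  obtain ⟨r, hr0, hr⟩ := hφi.mem_periodicPts ⟨p, by rw [hS]; exact hp⟩
  refine ⟨p, r, hp.isPrime, ?_, hr0, ?_, fun q hq => hpx hq, ?_⟩
  · intro hbot
    have h1 : h ∈ orbI f x 0 := by
      rw [mem_orbI]
      intro m
      exact hx m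
    have h2 := hp.le h1
    rw [hbot, Ideal.mem_bot] at h2
    exact hh h2
  · have := congrArg (Subtype.val) hr
    rw [hiter] at this
    exact this
  · intro q hq
    apply hp.le
    rw [mem_orbI]
    intro m
    exact hq m

theorem pf_ORB : T_ORB := by
  intro k _ f f' x h hf hh hx
  obtain ⟨I, r, h1, h2, h3, h4, h5, -⟩ := pf_ORX k f f' x h hf hh hx
  exact ⟨I, r, h1, h2, h3, h4, h5⟩

end Pool.Agent.H19.ZA
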