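import Pool.Agent.H8.ZA.Targets

/-!
# Module RNK: the rank of the restriction to a plane
-/

open MvPolynomial

namespace Pool.Agent.H19.ZA

open Pool.Agent.H8.ZA
open Pool.Agent.H12.ZD (pmap)

section

variable {L : Type} [Field L]

/-- substitution of the constant `c` for the second variable -/
noncomputable def ph (c : L) : MvPolynomial (Fin 2) L →ₐ[L] Polynomial L :=
  aeval ![Polynomial.X, Polynomial.C c]

theorem ph_dvd (c : L) {S : MvPolynomial (Fin 2) L} (h : ph c S = 0) :
    (X 1 - C c : MvPolynomial (Fin 2) L) ∣ S := by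
  rw [← Ideal.mem_span_singleton, ← Ideal.Quotient.eq_zero_iff_mem]
  have key : ((Ideal.Quotient.mkₐ L (Ideal.span {(X 1 - C c : MvPolynomial (Fin 2) L)})).comp
      ((Polynomial.aeval (X 0 : MvPolynomial (Fin 2) L)).comp (ph c))) =
      Ideal.Quotient.mkₐ L (Ideal.span {(X 1 - C c : MvPolynomial (Fin 2) L)}) := by
    apply algHom_ext
    intro i
    fin_cases i
    · simp [ph]
    · simp only [ph, AlgHom.comp_apply, aeval_X, Fin.mk_one, Matrix.cons_val_one,
        Matrix.cons_val_zero, Polynomial.aeval_C, Ideal.Quotient.mkₐ_eq_mk]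
      symm
      rw [Ideal.Quotient.eq, MvPolynomial.algebraMap_eq]
      exact Ideal.mem_span_singleton_self _
  have h1 := DFunLike.congr_fun key S
  rw [AlgHom.comp_apply, AlgHom.comp_apply, h, map_zero, map_zero] at h1
  exact h1.symm

theorem ph_natDegree (c : L) (q : MvPolynomial (Fin 2) L) :
    (ph c q).natDegree ≤ q.totalDegree := by
  unfold ph
  rw [aeval_def, eval₂_eq']
  apply Polynomial.natDegree_sum_le_of_forall_le
  intro m hm
  rw [Fin.prod_univ_two]
  simp only [Matrix.cons_val_zero, Matrix.cons_val_one]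
  rw [Polynomial.algebraMap_eq, ← Polynomial.C_pow]
  refine (Polynomial.natDegree_C_mul_le _ _).trans ?_
  refine (Polynomial.natDegree_mul_C_le _ _).trans ?_
  rw [Polynomial.natDegree_X_pow]
  refine le_trans ?_ (le_totalDegree hm)
  rw [Finsupp.sum_fintype _ _ (fun _ => rfl), Fin.sum_univ_two]
  exact Nat.le_add_right _ _

theorem ph_prod_dvd {S : MvPolynomial (Fin 2) L} (J : Finset L) (h : ∀ c ∈ J, ph c S = 0) :
    (∏ c ∈ J, (X 1 - C c : MvPolynomial (Fin 2) L)) ∣ S := by
  apply Finset.prod_dvd_of_coprime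
  · intro a _ b _ hab
    refine ⟨C (b - a)⁻¹, -C (b - a)⁻¹, ?_⟩
    have h1 : (b - a)⁻¹ * (b - a) = 1 := inv_mul_cancel₀ (sub_ne_zero.2 hab.symm)
    have h2 : (C (b - a)⁻¹ : MvPolynomial (Fin 2) L) * (C b - C a) = 1 := by
      rw [← C_sub, ← C_mul, h1, C_1]
    linear_combination h2
  · intro c hc
    exact ph_dvd c (h c hc)

theorem pl_totalDegree (u : Fin 4 → L) (i : Fin 3) : (pl u i).totalDegree ≤ 1 := by
  have hC : ∀ a : L, (C a : MvPolynomial (Fin 2) L).totalDegree ≤ 1 := by
    intro a; rw [totalDegree_C]; exact Nat.zero_le _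
  have hCX : ∀ (a : L) (j : Fin 2), (C a * X j : MvPolynomial (Fin 2) L).totalDegree ≤ 1 := by
    intro a j
    refine (totalDegree_mul _ _).trans ?_
    rw [totalDegree_C, totalDegree_X]
  unfold pl
  fin_cases i
  · exact (totalDegree_X 0).le
  · exact (totalDegree_X 1).le
  · show (C (-(u 3)⁻¹) * (C (u 0) + C (u 1) * X 0 + C (u 2) * X 1) :
      MvPolynomial (Fin 2) L).totalDegree ≤ 1
    refine (totalDegree_mul _ _).trans ?_
    rw [totalDegree_C, zero_add]
    refine (totalDegree_add _ _).trans (max_le ((totalDegree_add _ _).trans (max_le (hC _) ?_)) ?_)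
    · exact hCX _ _
    · exact hCX _ _

theorem aeval_pl_totalDegree (u : Fin 4 → L) (q : Po L) :
    (aeval (pl u) q).totalDegree ≤ q.totalDegree := by
  have := totalDegree_aeval_le (pl u) 1 (pl_totalDegree u) q
  rwa [mul_one] at this

theorem rho_X (Z : Tup L) (u : Fin 4 → L) (i : Fin 3) : rho Z u (X i) = aeval (pl u) (Z i) :=
  aeval_X _ _

theorem rho_eq (Z : Tup L) (u : Fin 4 → L) (q : Po L) : rho Z u q = aeval (pl u) (aeval Z q) := by
  have h : rho Z u = (aeval (pl u) : Po L →ₐ[L] MvPolynomial (Fin 2) L).comp (aeval Z) := by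
    apply algHom_ext
    intro i
    rw [rho_X, AlgHom.comp_apply, aeval_X]
  rw [h]
  rfl

theorem rho_Vsp {Xt Zt : Tup L} {p : Po L} {u : Fin 4 → L} {d e k D l : ℕ} (hI : Inv Xt Zt)
    (hZ : ∀ i, (Zt i).totalDegree ≤ e) (hp : p.totalDegree ≤ d) {s : Po L}
    (hs : s ∈ Vsp (aeval Xt p) k D l) : (rho Zt u s).totalDegree ≤ k * d + (l + D) * e := by
  have hle : Vsp (aeval Xt p) k D l ≤
      (restrictTotalDegree (Fin 2) L (k * d + (l + D) * e)).comap (rho Zt u).toLinearMap := by
    unfold Vsp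
    rw [Submodule.span_le]
    rintro _ ⟨a, i, b, c, ha, hi, hbc, rfl⟩
    show rho Zt u _ ∈ restrictTotalDegree (Fin 2) L (k * d + (l + D) * e)
    rw [mem_restrictTotalDegree]
    rw [map_mul, map_mul, map_mul, map_pow, map_pow, map_pow, map_pow, rho_eq Zt u (aeval Xt p),
      hI.aeval_left, rho_X, rho_X, rho_X]
    have hz : ∀ (j : Fin 3) (n : ℕ), (aeval (pl u) (Zt j) ^ n : MvPolynomial (Fin 2) L).totalDegree ≤
        n * e := fun j n => (totalDegree_pow _ _).trans
      (Nat.mul_le_mul_left _ ((aeval_pl_totalDegree u _).trans (hZ j)))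
    have hpp : (aeval (pl u) p ^ a : MvPolynomial (Fin 2) L).totalDegree ≤ a * d :=
      (totalDegree_pow _ _).trans (Nat.mul_le_mul_left _ ((aeval_pl_totalDegree u _).trans hp))
    have h1 : a * d ≤ k * d := Nat.mul_le_mul_right _ ha
    have h2 : i * e + (b * e + c * e) ≤ (l + D) * e := by
      rw [← add_mul, ← add_mul]
      exact Nat.mul_le_mul_right _ (by omega)
    refine (totalDegree_mul _ _).trans ((add_le_add ((totalDegree_mul _ _).trans
      (add_le_add hpp (hz _ _))) ((totalDegree_mul _ _).trans (add_le_add (hz _ _) (hz _ _)))).trans ?_)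
    omega
  have := hle hs
  rwa [Submodule.mem_comap, AlgHom.toLinearMap_apply, mem_restrictTotalDegree] at this

end

theorem pf_RNK (_hISO : T_ISO) (_hBEZ : T_BEZ) (hCOP : T_COP) (hUPZ : T_UPZ) (hLOZ : T_LOZ) :
    T_RNK := by
  intro L _ _ Xt Zt p u d e k D l J hI hu3 hX hZ hp hc2 hc0 he hlt
  obtain ⟨J0, hJ0⟩ := Infinite.exists_subset_card_eq L J
  obtain ⟨N, hN⟩ : ∃ N, N = k * d + (l + D) * e := ⟨_, rfl⟩
  have hdeg : ∀ (c : L) (w : Submodule.map (rho Zt u).toLinearMap (Vsp (aeval Xt p) k D l)),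
      (ph c).toLinearMap (w : MvPolynomial (Fin 2) L) ∈ Polynomial.degreeLT L (N + 1) := by
    rintro c ⟨_, s, hs, rfl⟩
    rw [Polynomial.mem_degreeLT]
    have h1 := (ph_natDegree c (rho Zt u s)).trans (rho_Vsp (u := u) hI hZ hp hs)
    rw [← hN] at h1
    refine lt_of_le_of_lt (Polynomial.degree_le_of_natDegree_le h1) ?_
    exact_mod_cast Nat.lt_succ_self N
  obtain ⟨Ψ, hΨ⟩ : ∃ Ψ : Submodule.map (rho Zt u).toLinearMap (Vsp (aeval Xt p) k D l) →ₗ[L]
      (J0 → Polynomial.degreeLT L (N + 1)), ∀ w c, ((Ψ w c : Polynomial.degreeLT L (N + 1)) :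
        Polynomial L) = ph (c : L) (w : MvPolynomial (Fin 2) L) :=
    ⟨LinearMap.pi fun c => (((ph (c : L)).toLinearMap.domRestrict _).codRestrict
      (Polynomial.degreeLT L (N + 1)) (hdeg c)), fun _ _ => rfl⟩
  have hinj : Function.Injective Ψ := by
    rw [← LinearMap.ker_eq_bot, LinearMap.ker_eq_bot']
    rintro ⟨_, s, hs, rfl⟩ h0
    have h1 : ∀ c ∈ J0, ph c (rho Zt u s) = 0 := by
      intro c hc
      have := hΨ ⟨_, s, hs, rfl⟩ ⟨c, hc⟩
      rw [h0] at this
      exact this.symm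
    apply Subtype.ext
    show rho Zt u s = 0
    by_contra hne
    have hfin2 : {c : L | rho Zt u (X 0) - C c = 0}.Finite := by
      apply Set.Subsingleton.finite
      intro a ha b hb
      rw [Set.mem_ofPred_eq, sub_eq_zero] at ha hb
      exact C_injective (Fin 2) L (ha.symm.trans hb)
    obtain ⟨c1, hc1⟩ := ((hCOP L (rho Zt u (X 0)) (rho Zt u s) hne).union hfin2).infinite_compl.nonempty
    rw [Set.mem_compl_iff, Set.mem_union, Set.mem_ofPred_eq, Set.mem_ofPred_eq, not_or,
      not_not] at hc1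
    obtain ⟨hf, hle⟩ := hUPZ L Xt Zt p u d e k D l s c1 hI hu3 hX hZ hp hc2 hs hne hc1.2 hc1.1
    have h2 := hLOZ L e (rho Zt u (X 0) - C c1) (rho Zt u s) J0 (by
      refine (totalDegree_sub _ _).trans (max_le ?_ ?_)
      · rw [rho_X]; exact (aeval_pl_totalDegree u _).trans (hZ 0)
      · rw [totalDegree_C]; exact Nat.zero_le _) (by
      rw [coeff_sub, rho_X, coeff_C, if_neg, sub_zero]
      · exact hc0
      · intro h3
        have := DFunLike.congr_fun h3 0
        rw [Finsupp.single_eq_same] at this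
        simp only [Finsupp.coe_zero, Pi.zero_apply] at this
        omega) (ph_prod_dvd J0 h1) hf
    rw [hJ0] at h2
    omega
  have h3 := LinearMap.finrank_le_finrank_of_injective hinj
  rw [Module.finrank_pi_fintype, Finset.sum_const, (Polynomial.degreeLTEquiv L (N + 1)).finrank_eq,
    Module.finrank_fin_fun, Finset.card_univ, Fintype.card_coe, hJ0, smul_eq_mul, hN] at h3
  exact h3

end Pool.Agent.H19.ZA
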